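import Pool.Agent.H.MP_0d0865_co.AS.Cod

/-!
# Brg: from the numerical checks to the base data

PROOF. `G = lin4 ..`, `L v = lgt (cod v)`, `B b x = vec p (bc b x.val)`. `lt`, `inj`, `step`: by `X2` and `X1` (for `v ≠ 0` the code `c = cod v` is
not `0`, `X (lgt c) = c`; `cod (G v) = gco .. c = X ((lgt c + 1) % (s * m))`, which is not `0`, and its `lgt` is
`(lgt c + 1) % (s * m)`). `gd`: `det (G u) (G v) = (ga gd - gb gc) det u v`, the factor is not `0` by `g`
(`ZMod.natCast_eq_natCast_iff'`). `U`, `E`: the code of `df` at `b, x` is `(d1c .., d2c ..)` (`(x + 1).val = (x.val + 1) % p`,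
`ZMod.val_add`, `ZMod.val_one`, `ZMod.val_two_eq_two_mod` or `(x + 2).val` as `(x + 1 + 1).val`), `cod_sub`, `cod_vec`, `cod_frm`. For `E`: `u = vec p (X r)` with
`r = L u < s`, `c = L v < s * m` (`u ≠ 0`, `v ≠ 0` as the determinant is not `0`), `dtn ≠ 0` by `cod_det`. `nc`, `tr`, `wt`: `cod_det`,
`ZMod.val_injective`.
-/

set_option autoImplicit false

namespace Pool.Agent.H.MP_0d0865_co.AS

open Pool.Agent.H.MP_0d0865_co.AG

private theorem Brg_val1 {p : ℕ} [Fact p.Prime] (x : ZMod p) :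
    (x + 1).val = (x.val + 1) % p := by
  have h1 : (1 : ZMod p) = ((1 : ℕ) : ZMod p) := by norm_num
  rw [ZMod.val_add, h1, ZMod.val_natCast, Nat.add_mod_mod]

private theorem Brg_val2 {p : ℕ} [Fact p.Prime] (x : ZMod p) :
    (x + 2).val = (x.val + 2) % p := by
  have h2 : (2 : ZMod p) = ((2 : ℕ) : ZMod p) := by norm_num
  rw [ZMod.val_add, h2, ZMod.val_natCast, Nat.add_mod_mod]

theorem brg {p : ℕ} [Fact p.Prime] (h3 : 3 < p) {s m n0 ga gb gc gd : ℕ} {X lgt : ℕ → ℕ}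
    {bc : ℕ → ℕ → ℕ} {wc tc : ℕ → ℕ} {T : ℕ → ℕ → ℕ}
    (h : Chk p s m n0 ga gb gc gd X lgt bc wc tc T) :
    Bas p s m n0 (lin4 p ga gb gc gd) (fun v => lgt (cod v))
      (fun b x => vec p (bc b.val x.val)) (fun b => vec p (wc b.val)) (fun b => vec p (tc b.val))
      T := by
  have hX : ∀ v : ZMod p × ZMod p, v ≠ 0 → lgt (cod v) < s * m ∧ X (lgt (cod v)) = cod v := by
    intro v hv
    rcases h.X2 ⟨cod v, cod_lt v⟩ with h1 | h1
    · exact absurd (cod_eq_zero.1 h1) hv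
    · exact h1
  have hsm : 0 < s * m := Nat.mul_pos h.s0 h.m0
  -- the codes of the base cycles and their differences
  have hB : ∀ (b : Fin n0) (x : ZMod p), cod (vec p (bc b.val x.val)) = bc b.val x.val :=
    fun b x => cod_vec (h.B b ⟨x.val, ZMod.val_lt x⟩)
  have hd1 : ∀ (b : Fin n0) (x : ZMod p),
      cod (df (fun (b : Fin n0) (x : ZMod p) => vec p (bc b.val x.val)) b x).1 =
        d1c p bc b.val x.val := by
    intro b x
    show cod (vec p (bc b.val (x + 1).val) - vec p (bc b.val x.val)) = _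
    rw [cod_sub, hB, hB, Brg_val1]
    rfl
  have hd2 : ∀ (b : Fin n0) (x : ZMod p),
      cod (df (fun (b : Fin n0) (x : ZMod p) => vec p (bc b.val x.val)) b x).2 =
        d2c p bc b.val x.val := by
    intro b x
    show cod (vec p (bc b.val (x + 2).val) - vec p (bc b.val (x + 1).val)) = _
    rw [cod_sub, hB, hB, Brg_val1, Brg_val2]
    rfl
  have hw : ∀ b : Fin n0, cod (vec p (wc b.val)) = wc b.val := fun b => cod_vec (h.W b).1
  have ht : ∀ b : Fin n0, cod (vec p (tc b.val)) = tc b.val := fun b => cod_vec (h.W b).2.1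
  have hdet : ∀ u v : ZMod p × ZMod p, dtn p (cod u) (cod v) ≠ 0 ↔ det u v ≠ 0 := by
    intro u v
    rw [cod_det, Ne, Ne, ZMod.val_eq_zero]
  refine ⟨h.s0, h.m0, fun v hv => (hX v hv).1, ?_, ?_, ?_, ?_, ?_, ?_, ?_, ?_⟩
  · -- inj
    intro u v hu hv huv
    have huv' : lgt (cod u) = lgt (cod v) := huv
    apply cod_inj
    rw [← (hX u hu).2, ← (hX v hv).2, huv']
  · -- step
    intro v hv
    obtain ⟨h1, h2⟩ := hX v hv
    have h3 := (h.X1 ⟨lgt (cod v), h1⟩).2.2.2
    have h4 := h.X1 ⟨(lgt (cod v) + 1) % (s * m), Nat.mod_lt _ hsm⟩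
    simp only at h3 h4
    have h5 : cod (lin4 p ga gb gc gd v) = X ((lgt (cod v) + 1) % (s * m)) := by
      rw [cod_lin, h3, h2]
    refine ⟨fun h0 => h4.2.1 ?_, ?_⟩
    · rw [← h5, h0]
      exact cod_eq_zero.2 rfl
    · show lgt (cod (lin4 p ga gb gc gd v)) = _
      rw [h5]
      exact h4.2.2.1
  · -- gd
    refine ⟨(ga : ZMod p) * (gd : ZMod p) - (gb : ZMod p) * (gc : ZMod p), ?_, ?_⟩
    · intro h0
      apply h.g
      rw [← ZMod.natCast_eq_natCast_iff']
      push_cast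
      exact sub_eq_zero.1 h0
    · intro u v
      show ((ga : ZMod p) * u.1 + (gb : ZMod p) * u.2) * ((gc : ZMod p) * v.1 + (gd : ZMod p) * v.2) -
        ((gc : ZMod p) * u.1 + (gd : ZMod p) * u.2) * ((ga : ZMod p) * v.1 + (gb : ZMod p) * v.2) =
        ((ga : ZMod p) * (gd : ZMod p) - (gb : ZMod p) * (gc : ZMod p)) * (u.1 * v.2 - u.2 * v.1)
      ring
  · -- U
    intro b x e he
    have h1 := h.U b ⟨x.val, ZMod.val_lt x⟩ ⟨e, he⟩
    simp only at h1
    rw [← hd1 b x, ← hd2 b x, ← cod_frm] at h1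
    exact h1
  · -- E
    intro u v hus huv
    have hu : u ≠ 0 := by
      rintro rfl
      apply huv
      simp [det]
    have hv : v ≠ 0 := by
      rintro rfl
      apply huv
      simp [det]
    have h1 := h.E ⟨lgt (cod u), hus⟩ ⟨lgt (cod v), (hX v hv).1⟩
    simp only at h1
    rw [(hX u hu).2, (hX v hv).2] at h1
    obtain ⟨t, htt⟩ : ∃ t, t = T (lgt (cod u)) (lgt (cod v)) := ⟨_, rfl⟩
    rw [← htt] at h1
    rcases h1 with h1 | ⟨h1, h2, h3⟩
    · exact absurd h1 ((hdet u v).2 huv)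
    · have hp0 : 0 < p := (Fact.out : p.Prime).pos
      have hxv : ((t / 6 % p : ℕ) : ZMod p).val = t / 6 % p := by
        rw [ZMod.val_natCast, Nat.mod_mod]
      refine ⟨⟨t / 6 / p / m, h1⟩, ((t / 6 % p : ℕ) : ZMod p), t % 6, t / 6 / p % m,
        Nat.mod_lt _ (by norm_num), Nat.mod_lt _ h.m0, ?_, ?_⟩
      · show lgt (cod (frm u v (t % 6)).1) = (lgt (cod (df _ _ _).1) + _) % _
        rw [hd1, hxv, ← h2, ← cod_frm]
      · show lgt (cod (frm u v (t % 6)).2) = (lgt (cod (df _ _ _).2) + _) % _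
        rw [hd2, hxv, ← h3, ← cod_frm]
  · -- nc
    intro b x
    rw [← hdet, hd1, hd2]
    exact h.N b ⟨x.val, ZMod.val_lt x⟩
  · -- tr
    intro b x x' hxx
    rcases h.R b ⟨x.val, ZMod.val_lt x⟩ ⟨x'.val, ZMod.val_lt x'⟩ with h1 | h1
    · exact ZMod.val_injective p (congrArg Fin.val h1)
    · exfalso
      apply h1
      show dtn p (wc b.val) (bc b.val x.val) = dtn p (wc b.val) (bc b.val x'.val)
      rw [← hw b, ← hB b x, ← hB b x', cod_det, cod_det]
      exact congrArg ZMod.val hxx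
  · -- wt
    intro b
    rw [← hdet, hw, ht]
    exact (h.W b).2.2

end Pool.Agent.H.MP_0d0865_co.AS
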