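import Pool.Agent.H.MP_0d0865_co.AS.Def

/-!
# Cod: codes of vectors

PROOF. `ZMod.val_lt`, `Nat.add_mul_div_left`, `Nat.mul_add_mod`, `ZMod.natCast_zmod_val`, `ZMod.val_natCast`. For `a b : ZMod p`:
`(a - b).val = (a.val + (p - b.val)) % p`, as `a - b = ((a.val + (p - b.val) : ℕ) : ZMod p)` (`ZMod.natCast_self`). `cod_frm`: by cases on
`e`, with `-u - v = (0 - u) - v`, `u + v = u - (0 - v)`, `-u = 0 - u`, `cod 0 = 0` and `cod_sub`. `cod_det`: the cast of `dtn p (cod u) (cod v)`
to `ZMod p` is `det u v` (`Nat.cast_sub` with `u % p * (v / p) ≤ p * p * p`), and `dtn` is less than `p` (so it is the `val` of its cast).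
`cod_lin`: the same.
-/

set_option autoImplicit false

namespace Pool.Agent.H.MP_0d0865_co.AS

open Pool.Agent.H.MP_0d0865_co.AG

variable {p : ℕ} [Fact p.Prime]

private theorem Cod_pos : 0 < p := (Fact.out : p.Prime).pos

private theorem Cod_div (v : ZMod p × ZMod p) : cod v / p = v.1.val := by
  have h : v.2.val < p := ZMod.val_lt _
  unfold cod
  rw [Nat.mul_add_div Cod_pos, Nat.div_eq_of_lt h, add_zero]

private theorem Cod_mod (v : ZMod p × ZMod p) : cod v % p = v.2.val := by
  have h : v.2.val < p := ZMod.val_lt _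
  unfold cod
  rw [Nat.mul_add_mod, Nat.mod_eq_of_lt h]

private theorem Cod_subval (a b : ZMod p) : (a - b).val = (a.val + (p - b.val)) % p := by
  have h : b.val ≤ p := (ZMod.val_lt b).le
  rw [← ZMod.val_natCast]
  congr 1
  rw [Nat.cast_add, Nat.cast_sub h, ZMod.natCast_self, ZMod.natCast_zmod_val,
    ZMod.natCast_zmod_val]
  ring

private theorem Cod_zero : cod (0 : ZMod p × ZMod p) = 0 := by
  simp [cod]

theorem cod_lt (v : ZMod p × ZMod p) : cod v < p * p := by
  have h1 : v.1.val < p := ZMod.val_lt _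
  have h2 : v.2.val < p := ZMod.val_lt _
  unfold cod
  calc p * v.1.val + v.2.val < p * v.1.val + p := by omega
    _ = p * (v.1.val + 1) := by ring
    _ ≤ p * p := Nat.mul_le_mul_left _ h1

theorem cod_vec {n : ℕ} (hn : n < p * p) : cod (vec p n) = n := by
  have h1 : n / p < p := Nat.div_lt_of_lt_mul hn
  unfold cod vec
  rw [ZMod.val_natCast, ZMod.val_natCast, Nat.mod_mod, Nat.mod_eq_of_lt h1]
  exact Nat.div_add_mod n p

theorem cod_inj {u v : ZMod p × ZMod p} (h : cod u = cod v) : u = v := by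
  have h1 : u.1.val = v.1.val := by rw [← Cod_div, h, Cod_div]
  have h2 : u.2.val = v.2.val := by rw [← Cod_mod, h, Cod_mod]
  exact Prod.ext (ZMod.val_injective p h1) (ZMod.val_injective p h2)

theorem cod_eq_zero {v : ZMod p × ZMod p} : cod v = 0 ↔ v = 0 := by
  constructor
  · intro h
    exact cod_inj (h.trans Cod_zero.symm)
  · rintro rfl
    exact Cod_zero

theorem cod_sub (u v : ZMod p × ZMod p) : cod (u - v) = sbc p (cod u) (cod v) := by
  unfold sbc
  rw [Cod_div, Cod_div, Cod_mod, Cod_mod, ← Cod_subval, ← Cod_subval]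
  rfl

theorem cod_frm (u v : ZMod p × ZMod p) (e : ℕ) :
    (cod (frm u v e).1, cod (frm u v e).2) = frc p (cod u) (cod v) e := by
  have h0 : ∀ w : ZMod p × ZMod p, sbc p 0 (cod w) = cod (-w) := by
    intro w
    rw [← zero_sub, cod_sub, Cod_zero]
  have h1 : sbc p (cod (-u)) (cod v) = cod (-u - v) := (cod_sub _ _).symm
  have h2 : sbc p (cod u) (cod (-v)) = cod (u + v) := by
    rw [← cod_sub, sub_neg_eq_add]
  unfold frm frc
  rw [h0, h0, h1, h2]
  split_ifs <;> rfl

theorem cod_det (u v : ZMod p × ZMod p) : dtn p (cod u) (cod v) = (det u v).val := by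
  have hle : u.2.val * v.1.val ≤ p * p * p := by
    have h1 : u.2.val ≤ p := (ZMod.val_lt _).le
    have h2 : v.1.val ≤ p := (ZMod.val_lt _).le
    calc u.2.val * v.1.val ≤ p * p := Nat.mul_le_mul h1 h2
      _ ≤ p * p * p := Nat.le_mul_of_pos_right _ Cod_pos
  unfold dtn
  rw [Cod_div, Cod_div, Cod_mod, Cod_mod, ← ZMod.val_natCast]
  congr 1
  unfold det
  rw [Nat.cast_add, Nat.cast_sub hle]
  push_cast
  rw [ZMod.natCast_self, ZMod.natCast_zmod_val, ZMod.natCast_zmod_val, ZMod.natCast_zmod_val,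
    ZMod.natCast_zmod_val]
  ring

theorem cod_lin (ga gb gc gd : ℕ) (v : ZMod p × ZMod p) :
    cod (lin4 p ga gb gc gd v) = gco p ga gb gc gd (cod v) := by
  unfold gco
  rw [Cod_div, Cod_mod, ← ZMod.val_natCast, ← ZMod.val_natCast]
  push_cast
  rw [ZMod.natCast_zmod_val, ZMod.natCast_zmod_val]
  rfl

end Pool.Agent.H.MP_0d0865_co.AS
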