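import Pool.Agent.H.MP_0d0865_co.AG.Def

/-!
# AS: data for the plane with a cyclic group: definitions

Vectors of the plane over `ZMod p` are coded by numbers less than `p * p`.
-/

set_option autoImplicit false

namespace Pool.Agent.H.MP_0d0865_co.AS

open Pool.Agent.H.MP_0d0865_co.AG

/-- Subtraction of codes. -/
def sbc (p u v : ℕ) : ℕ :=
  p * ((u / p + (p - v / p)) % p) + (u % p + (p - v % p)) % p

/-- The code of a vector. -/
def cod {p : ℕ} (v : ZMod p × ZMod p) : ℕ := p * v.1.val + v.2.val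

/-- The vector of a code. -/
def vec (p n : ℕ) : ZMod p × ZMod p := (((n / p : ℕ) : ZMod p), ((n % p : ℕ) : ZMod p))

/-- The pair number `e` of `forms`. -/
def frm {p : ℕ} (u v : ZMod p × ZMod p) (e : ℕ) : (ZMod p × ZMod p) × (ZMod p × ZMod p) :=
  if e = 0 then (u, v) else if e = 1 then (v, -u - v) else if e = 2 then (-u - v, u) else
    if e = 3 then (-v, -u) else if e = 4 then (u + v, -v) else (-u, u + v)

/-- The same for codes. -/
def frc (p u v e : ℕ) : ℕ × ℕ :=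
  if e = 0 then (u, v) else if e = 1 then (v, sbc p (sbc p 0 u) v) else
    if e = 2 then (sbc p (sbc p 0 u) v, u) else if e = 3 then (sbc p 0 v, sbc p 0 u) else
      if e = 4 then (sbc p u (sbc p 0 v), sbc p 0 v) else (sbc p 0 u, sbc p u (sbc p 0 v))

/-- The determinant of codes. -/
def dtn (p u v : ℕ) : ℕ := (u / p * (v % p) + (p * p * p - u % p * (v / p))) % p

/-- The linear map with the given matrix. -/
def lin4 (p ga gb gc gd : ℕ) : (ZMod p × ZMod p) →ₗ[ZMod p] (ZMod p × ZMod p) where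
  toFun v := ((ga : ZMod p) * v.1 + (gb : ZMod p) * v.2, (gc : ZMod p) * v.1 + (gd : ZMod p) * v.2)
  map_add' u v := by ext <;> simp <;> ring
  map_smul' c v := by ext <;> simp <;> ring

/-- The linear map on codes. -/
def gco (p ga gb gc gd c : ℕ) : ℕ :=
  p * ((ga * (c / p) + gb * (c % p)) % p) + (gc * (c / p) + gd * (c % p)) % p

/-- The first difference of the base cycle (codes). -/
def d1c (p : ℕ) (bc : ℕ → ℕ → ℕ) (b x : ℕ) : ℕ := sbc p (bc b ((x + 1) % p)) (bc b x)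

/-- The second difference of the base cycle (codes). -/
def d2c (p : ℕ) (bc : ℕ → ℕ → ℕ) (b x : ℕ) : ℕ := sbc p (bc b ((x + 2) % p)) (bc b ((x + 1) % p))

/-- The check of uniqueness for the pair of codes `f`. -/
def Uck (p s m : ℕ) (lgt : ℕ → ℕ) (T : ℕ → ℕ → ℕ) (b x : ℕ) (f : ℕ × ℕ) : Prop :=
  T (lgt f.1 % s) ((lgt f.2 + (s * m - s * (lgt f.1 / s))) % (s * m)) / 6 =
    (b * m + (m - lgt f.1 / s) % m) * p + x

instance (p s m : ℕ) (lgt : ℕ → ℕ) (T : ℕ → ℕ → ℕ) (b x : ℕ) (f : ℕ × ℕ) :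
    Decidable (Uck p s m lgt T b x f) := by unfold Uck; infer_instance

/-- The check of existence for the pair of codes `u`, `v` with the entry `t` of the table. -/
def Eck (p s m n0 : ℕ) (lgt : ℕ → ℕ) (bc : ℕ → ℕ → ℕ) (u v t : ℕ) : Prop :=
  dtn p u v = 0 ∨ (t / 6 / p / m < n0 ∧
    lgt (frc p u v (t % 6)).1 =
      (lgt (d1c p bc (t / 6 / p / m) (t / 6 % p)) + s * (t / 6 / p % m)) % (s * m) ∧
    lgt (frc p u v (t % 6)).2 =
      (lgt (d2c p bc (t / 6 / p / m) (t / 6 % p)) + s * (t / 6 / p % m)) % (s * m))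

instance (p s m n0 : ℕ) (lgt : ℕ → ℕ) (bc : ℕ → ℕ → ℕ) (u v t : ℕ) :
    Decidable (Eck p s m n0 lgt bc u v t) := by unfold Eck; infer_instance

/-- The numerical checks. `X l` is the code of the `l`-th power, `lgt` is the logarithm of a code, `bc` are the base cycles,
`wc`, `tc` the directions, `T` the table of the places. -/
structure Chk (p s m n0 ga gb gc gd : ℕ) (X lgt : ℕ → ℕ) (bc : ℕ → ℕ → ℕ) (wc tc : ℕ → ℕ)
    (T : ℕ → ℕ → ℕ) : Prop where
  q : s * m + 1 = p * p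
  s0 : 0 < s
  m0 : 0 < m
  X1 : ∀ l : Fin (s * m), X l.val < p * p ∧ X l.val ≠ 0 ∧ lgt (X l.val) = l.val ∧
    X ((l.val + 1) % (s * m)) = gco p ga gb gc gd (X l.val)
  X2 : ∀ c : Fin (p * p), c.val = 0 ∨ (lgt c.val < s * m ∧ X (lgt c.val) = c.val)
  g : (ga * gd) % p ≠ (gb * gc) % p
  B : ∀ (b : Fin n0) (x : Fin p), bc b.val x.val < p * p
  U : ∀ (b : Fin n0) (x : Fin p) (e : Fin 6),
    Uck p s m lgt T b.val x.val (frc p (d1c p bc b.val x.val) (d2c p bc b.val x.val) e.val)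
  E : ∀ (r : Fin s) (c : Fin (s * m)), Eck p s m n0 lgt bc (X r.val) (X c.val) (T r.val c.val)
  N : ∀ (b : Fin n0) (x : Fin p), dtn p (d1c p bc b.val x.val) (d2c p bc b.val x.val) ≠ 0
  R : ∀ (b : Fin n0) (x x' : Fin p), x = x' ∨
    dtn p (wc b.val) (bc b.val x.val) ≠ dtn p (wc b.val) (bc b.val x'.val)
  W : ∀ b : Fin n0, wc b.val < p * p ∧ tc b.val < p * p ∧ dtn p (wc b.val) (tc b.val) ≠ 0

/-- The base data in terms of vectors: `G` is the generator of the group, `L` the logarithm. -/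
structure Bas (p s m n0 : ℕ) (G : (ZMod p × ZMod p) →ₗ[ZMod p] (ZMod p × ZMod p))
    (L : ZMod p × ZMod p → ℕ) (B : Fin n0 → ZMod p → ZMod p × ZMod p)
    (w t : Fin n0 → ZMod p × ZMod p) (T : ℕ → ℕ → ℕ) : Prop where
  s0 : 0 < s
  m0 : 0 < m
  lt : ∀ v, v ≠ 0 → L v < s * m
  inj : ∀ u v, u ≠ 0 → v ≠ 0 → L u = L v → u = v
  step : ∀ v, v ≠ 0 → G v ≠ 0 ∧ L (G v) = (L v + 1) % (s * m)
  gd : ∃ c : ZMod p, c ≠ 0 ∧ ∀ u v, det (G u) (G v) = c * det u v
  U : ∀ (b : Fin n0) (x : ZMod p) (e : ℕ), e < 6 →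
    Uck p s m id T b.val x.val (L (frm (df B b x).1 (df B b x).2 e).1,
      L (frm (df B b x).1 (df B b x).2 e).2)
  E : ∀ u v, L u < s → det u v ≠ 0 → ∃ (b : Fin n0) (x : ZMod p) (e i : ℕ), e < 6 ∧ i < m ∧
    L (frm u v e).1 = (L (df B b x).1 + s * i) % (s * m) ∧
    L (frm u v e).2 = (L (df B b x).2 + s * i) % (s * m)
  nc : ∀ b x, det (df B b x).1 (df B b x).2 ≠ 0
  tr : ∀ b x x', det (w b) (B b x) = det (w b) (B b x') → x = x'
  wt : ∀ b, det (w b) (t b) ≠ 0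

/-- The cycles of the decomposition: the images of the base cycles under the powers of `G ^ s`. -/
def PP {p n0 m : ℕ} (s : ℕ) (G : (ZMod p × ZMod p) →ₗ[ZMod p] (ZMod p × ZMod p))
    (B : Fin n0 → ZMod p → ZMod p × ZMod p) (j : Fin (n0 * m)) (x : ZMod p) : ZMod p × ZMod p :=
  (G ^ (s * (finProdFinEquiv.symm j).2.val)) (B (finProdFinEquiv.symm j).1 x)

/-- The directions of the decomposition. -/
def WW {p n0 m : ℕ} (s : ℕ) (G : (ZMod p × ZMod p) →ₗ[ZMod p] (ZMod p × ZMod p))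
    (w : Fin n0 → ZMod p × ZMod p) (j : Fin (n0 * m)) : ZMod p × ZMod p :=
  (G ^ (s * (finProdFinEquiv.symm j).2.val)) (w (finProdFinEquiv.symm j).1)

end Pool.Agent.H.MP_0d0865_co.AS
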