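import Pool.Agent.H.MP_0d0865_co.AS.LinK

/-!
# L11: the tight Hamilton decomposition of the complete 3-graph on 11 points

The tables are found by a computer search; the checks are evaluated by the kernel.
-/

set_option autoImplicit false

namespace Pool.Agent.H.MP_0d0865_co.AS

open Pool.Agent.H.MP_0d0865_co.AG

/-- The cycles. -/
def L11.tq : List ℕ :=
  [0xa8625497103,
   0x97365a8214,
   0x1a847609325,
   0x2095871a436,
   0x31a69820547,
   0x4207a931658,
   0x53180a42769,
   0x6429105387a,
   0x753a2164980,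
   0x86403275a91,
   0x975143860a2,
   0x73a62951840,
   0xa9876543210,
   0x61728394a50,
   0x852a7419630]

/-- The inverses of the cycles. -/
def L11.ti : List ℕ :=
  [0xa4938650721,
   0x4938650721a,
   0x938650721a4,
   0x38650721a49,
   0x8650721a493,
   0x650721a4938,
   0x50721a49386,
   0x721a493865,
   0x721a4938650,
   0x21a49386507,
   0x1a493865072,
   0x852a7419630,
   0xa9876543210,
   0x2468a135790,
   0x73a62951840]

/-- The places in the order of the keys. -/
def L11.tS : List ℕ :=
  [0x518673690b3f1585680084,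
   0x2a988705742d164a50202e,
   0x6389921555b6a2b399a5c,
   0x449e83673582963e018810,
   0x1b1143971a2c6066756136,
   0x72407a799449a40c2f4889,
   0x376b71076c70414fa27ba3,
   0x185329528a261c4e952562,
   0x44b7d7c2892549d14173a,
   0x3127702134c5a9b7e9c19,
   0x8e8b31275993306d584276,
   0x1f8f224523465e340a5d6e,
   0x243d0f56807f336f905fa1,
   0xe1d090d1e4757659f81a0,
   0x8c3c3264913b78638d4d08]

/-- The ranks. -/
def L11.tR : List ℕ :=
  [0x7b979a492012626d6a2301,
   0x45a696c35218c99963a06,
   0xc8395985136326357590f,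
   0x1915555e75524e8e7f811d,
   0x2c277c88a27672390b1031,
   0x464005248da39f58181f4c,
   0x68610e3c38947e802b346f,
   0x938b1c5c56540a0d45509b,
   0x4d2d30857d7a161b677470,
   0x71484b1a0702282f92a19d,
   0x9e6b6e2e1108414a478779,
   0x2926908a8965605f433f3e,
   0x789ca47753372213090300,
   0x1e1433254f3d735da08682,
   0x3b4244848f912a5b646617]

/-- The cycles. -/
def L11.qc (j x : ℕ) : ℕ := (L11.tq.getD j 0 >>> (4 * x)) % 16

/-- The inverses of the cycles. -/
def L11.ic (j x : ℕ) : ℕ := (L11.ti.getD j 0 >>> (4 * x)) % 16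

/-- The places in the order of the keys. -/
def L11.S (i : ℕ) : ℕ := (L11.tS.getD (i / 11) 0 >>> (8 * (i % 11))) % 256

/-- The ranks. -/
def L11.R (i : ℕ) : ℕ := (L11.tR.getD (i / 11) 0 >>> (8 * (i % 11))) % 256

theorem L11.chk : LCk 11 15 L11.qc L11.ic L11.S L11.R where
  Z := by decide +kernel
  I := by decide +kernel
  M := by decide +kernel

theorem L11.line [Fact (Nat.Prime 11)] : Dec 11 (ZMod 11) (Spn 11) :=
  linK (by norm_num) L11.chk

end Pool.Agent.H.MP_0d0865_co.AS
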