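import Pool.Agent.H.MP_0d0865_co.AS.LinK

/-!
# L13: the tight Hamilton decomposition of the complete 3-graph on 13 points

The tables are found by a computer search; the checks are evaluated by the kernel.
-/

set_option autoImplicit false

namespace Pool.Agent.H.MP_0d0865_co.AS

open Pool.Agent.H.MP_0d0865_co.AG

/-- The cycles. -/
def L13.tq : List ℕ :=
  [0xa2534c69b7108,
   0x3645c7ab8219,
   0x14756c80b932a,
   0x25867c91ba430,
   0x36978ca2b0541,
   0x47a89c03b1652,
   0x5809ac14b2763,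
   0x691a0c25b3874,
   0x7a201c36b4985,
   0x80312c47b5a96,
   0x91423c58b60a7,
   0x4b892a617350c,
   0x5b9a30728461c,
   0x6ba041839572c,
   0x7b015294a683c,
   0x8b1263a50794c,
   0x9b23740618a5c,
   0xab3485172906c,
   0xb4596283a17c,
   0x1b56a7394028c,
   0x2b67084a5139c,
   0x3b781950624ac]

/-- The inverses of the cycles. -/
def L13.ti : List ℕ :=
  [0x74c5036a89b21,
   0x745036a89b21c,
   0x74036a89b21c5,
   0x7436a89b21c50,
   0x746a89b21c503,
   0x74a89b21c5036,
   0x7489b21c5036a,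
   0x749b21c5036a8,
   0x74b21c5036a89,
   0x7421c5036a89b,
   0x741c5036a89b2,
   0xb79a462c3851,
   0xb9a462c38517,
   0xba462c385179,
   0xb462c385179a,
   0xb62c385179a4,
   0xb2c385179a46,
   0xbc385179a462,
   0xb385179a462c,
   0xb85179a462c3,
   0xb5179a462c38,
   0xb179a462c385]

/-- The places in the order of the keys. -/
def L13.tS : List ℕ :=
  [0xbd192f9144013a2df2b03e8ccfc70,
   0xca1f85d97146a0209a341a8260c90,
   0xa270a8402152d10485150b44d3ad5,
   0x938608d22aa71319ae4c12359b092,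
   0x9f57c29dcae3f839f0001119c9c4f,
   0x10b182796eef69a01c85918b8cb0e5,
   0xfa0dc14300d6f8645e742d9714119,
   0x661f3c0cade792b179178b3ed768c,
   0x6956a5e30571eaad88fc702358af1,
   0x2889095621a7628c4c71318f10268,
   0xeb413fd72c94aa5107086402a0ec7,
   0x4a5c34612ed05b4818fe3992dfa72,
   0x45660dd7e49471d4ecba52258c856,
   0x43423ccbc5f808d9cc51293d1b244,
   0xcd0f434f0798d94004c0801acd90e,
   0x4531a838da15876348543264ba0f,
   0x6f5284022b33b8a5ce38152c93003,
   0x88302a11e073d94d368937118f861,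
   0x133d30952ea7b0840c6d5aa71ba14,
   0x104880b08e3b1021d9eb67bc0c3e2e,
   0x1274b42231d1c950c44816815b8c3,
   0xe86db3982b453a6a390f813d4aa3a]

/-- The ranks. -/
def L13.tR : List ℕ :=
  [0x944b2101e1372bbe0ccf682ec4638,
   0x542b85c3a22753da20d96d30c7456,
   0x7a3f8a86237783f9f0c164b30b27d,
   0x20591098537bc1e02ca69b590207,
   0x80c198de777fc4616d4532bc2011,
   0x1215a4536a484401bea854ad43e20,
   0x2122908e09c89429c6ac56af06835,
   0x36339913a7884b75d0b159310a051,
   0x524923cf2006e381dcb75c334e875,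
   0x76238ec02036f391eabe5fb5d42a2,
   0xa33516c0c0970ba5fac663ad10e8d,
   0xe28bb15a2724f2251033138c01ae6,
   0xe78c339b69f3d898484f2012c36ec,
   0xed8cb61a47e020fc7873309b85ef3,
   0xf48d2e94a0a06180b8a045a6894fb,
   0xfc8db094e160ca290a82169a4db04,
   0x1058e32d5428160a4341424255330e,
   0x10f8eb555c412310c5c2535954c6eb,
   0xf189aad666234194923d4b9f11cf2,
   0xf98a2c1728c49a40d85d2d01472fa,
   0x1028aad98032268f9308641838b103,
   0x10c8b2f5904e3897cbc1e0a871010d]

/-- The cycles. -/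
def L13.qc (j x : ℕ) : ℕ := (L13.tq.getD j 0 >>> (4 * x)) % 16

/-- The inverses of the cycles. -/
def L13.ic (j x : ℕ) : ℕ := (L13.ti.getD j 0 >>> (4 * x)) % 16

/-- The places in the order of the keys. -/
def L13.S (i : ℕ) : ℕ := (L13.tS.getD (i / 13) 0 >>> (9 * (i % 13))) % 512

/-- The ranks. -/
def L13.R (i : ℕ) : ℕ := (L13.tR.getD (i / 13) 0 >>> (9 * (i % 13))) % 512

theorem L13.chk : LCk 13 22 L13.qc L13.ic L13.S L13.R where
  Z := by decide +kernel
  I := by decide +kernel
  M := by decide +kernel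

theorem L13.line [Fact (Nat.Prime 13)] : Dec 13 (ZMod 13) (Spn 13) :=
  linK (by norm_num) L13.chk

end Pool.Agent.H.MP_0d0865_co.AS
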