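import Pool.Agent.H.MP_0d0865_co.AG.Lin

/-!
# LinK: the line from numerical checks

PROOF. `lin` of `AG.Lin` with `Q j x = (qc j x.val : ZMod p)`, which is injective in `x` by `I` (`(qc j x.val : ZMod p).val = qc j x.val` as it is less
than `p`), so bijective. Let `f (j, x) = {Q j x, Q j (x + 1), Q j (x + 2)}`, a set of three elements (`3 < p`), and
`msk s = ∑ v ∈ s, 2 ^ v.val`; `msk (f (j, x)) = key qc p j x.val` (`(x + 1).val = (x.val + 1) % p`). Let `i = j p + x.val < N p`; `S (R i) = i` and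
`key` of the place `S r` is strictly increasing in `r < N p` (`M`; by induction `r < r'` implies `<`); so if
`f (j, x) = f (j', x')` then the keys are equal, so `R i = R i'`, so `i = i'`, so `j = j'` and `x = x'`. So `f` is injective. The
number of sets of three elements is `p.choose 3 = N p` (`Z`; `Nat.choose_three_right` or `Finset.card_powersetCard` and
`Nat.succ_mul_choose_eq`), so `f` is a bijection onto them (`Finset.eq_of_subset_of_card_le` for the image of `Finset.univ`).
-/

set_option autoImplicit false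

namespace Pool.Agent.H.MP_0d0865_co.AS

open Pool.Agent.H.MP_0d0865_co.AG

/-- The key of a place. -/
def key (qc : ℕ → ℕ → ℕ) (p j x : ℕ) : ℕ :=
  2 ^ qc j x + 2 ^ qc j ((x + 1) % p) + 2 ^ qc j ((x + 2) % p)

/-- The numerical checks: `qc` are the cycles, `ic` their inverses, `S` lists the places in the order of the keys, `R` is the rank. -/
structure LCk (p N : ℕ) (qc ic : ℕ → ℕ → ℕ) (S R : ℕ → ℕ) : Prop where
  Z : N * 6 = (p - 1) * (p - 2)
  I : ∀ (j : Fin N) (x : Fin p), qc j.val x.val < p ∧ ic j.val (qc j.val x.val) = x.val ∧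
    R (j.val * p + x.val) < N * p ∧ S (R (j.val * p + x.val)) = j.val * p + x.val
  M : ∀ r : Fin (N * p - 1), key qc p (S r.val / p) (S r.val % p) <
    key qc p (S (r.val + 1) / p) (S (r.val + 1) % p)

private theorem LinK_mono {p N : ℕ} {qc ic : ℕ → ℕ → ℕ} {S R : ℕ → ℕ}
    (h : LCk p N qc ic S R) (r : ℕ) : ∀ d, r + d + 1 < N * p →
    key qc p (S r / p) (S r % p) < key qc p (S (r + d + 1) / p) (S (r + d + 1) % p)
  | 0, hd => h.M ⟨r, by omega⟩
  | d + 1, hd => (LinK_mono h r d (by omega)).trans (h.M ⟨r + d + 1, by omega⟩)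

private theorem LinK_inj {p N : ℕ} {qc ic : ℕ → ℕ → ℕ} {S R : ℕ → ℕ}
    (h : LCk p N qc ic S R) {r r' : ℕ} (hr : r < N * p) (hr' : r' < N * p)
    (he : key qc p (S r / p) (S r % p) = key qc p (S r' / p) (S r' % p)) : r = r' := by
  rcases lt_trichotomy r r' with hlt | heq | hgt
  · obtain ⟨d, rfl⟩ := Nat.exists_eq_add_of_lt hlt
    exact absurd he (LinK_mono h r d hr').ne
  · exact heq
  · obtain ⟨d, rfl⟩ := Nat.exists_eq_add_of_lt hgt
    exact absurd he.symm (LinK_mono h r' d hr).ne

private theorem LinK_choose {p N : ℕ} (h : N * 6 = (p - 1) * (p - 2)) : p.choose 3 = N * p := by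
  have h1 := Nat.descFactorial_eq_factorial_mul_choose p 3
  have h2 : p.descFactorial 3 = (p - 2) * ((p - 1) * p) := by
    simp [Nat.descFactorial_succ]
  have h3 : Nat.factorial 3 = 6 := rfl
  rw [h2, h3] at h1
  have h4 : 6 * p.choose 3 = 6 * (N * p) := by
    rw [← h1]
    calc (p - 2) * ((p - 1) * p) = ((p - 1) * (p - 2)) * p := by ring
      _ = N * 6 * p := by rw [h]
      _ = 6 * (N * p) := by ring
  omega

theorem linK {p : ℕ} [Fact p.Prime] (h3 : 3 < p) {N : ℕ} {qc ic : ℕ → ℕ → ℕ} {S R : ℕ → ℕ}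
    (h : LCk p N qc ic S R) : Dec p (ZMod p) (Spn p) := by
  have hp : 0 < p := by omega
  have hI : ∀ (j : Fin N) (x : ZMod p), qc j.val x.val < p ∧ ic j.val (qc j.val x.val) = x.val ∧
      R (j.val * p + x.val) < N * p ∧ S (R (j.val * p + x.val)) = j.val * p + x.val :=
    fun j x => h.I j ⟨x.val, ZMod.val_lt x⟩
  have hval : ∀ (j : Fin N) (x : ZMod p),
      ((qc j.val x.val : ℕ) : ZMod p).val = qc j.val x.val :=
    fun j x => ZMod.val_natCast_of_lt (hI j x).1
  have hinj : ∀ j : Fin N,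
      Function.Injective fun x : ZMod p => ((qc j.val x.val : ℕ) : ZMod p) := by
    intro j x y hxy
    have h1 : qc j.val x.val = qc j.val y.val := by
      rw [← hval j x, ← hval j y]
      exact congrArg ZMod.val hxy
    have h2 := (hI j x).2.1
    rw [h1, (hI j y).2.1] at h2
    exact ZMod.val_injective p h2.symm
  obtain ⟨Q, hQv⟩ : ∃ Q : Fin N → Equiv.Perm (ZMod p), ∀ j x, (Q j x).val = qc j.val x.val :=
    ⟨fun j => Equiv.ofBijective _ (Finite.injective_iff_bijective.1 (hinj j)),
      fun j x => hval j x⟩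
  have h1 : (1 : ZMod p) ≠ 0 := one_ne_zero
  have h2 : (2 : ZMod p) ≠ 0 := by
    intro h0
    have h4 : ((2 : ℕ) : ZMod p) = 0 := by exact_mod_cast h0
    rw [ZMod.natCast_eq_zero_iff] at h4
    have h5 := Nat.le_of_dvd (by norm_num) h4
    omega
  have e1 : ∀ j x, Q j x ≠ Q j (x + 1) := by
    intro j x h0
    have h4 := (Q j).injective h0
    exact h1 (by linear_combination -h4)
  have e2 : ∀ j x, Q j x ≠ Q j (x + 2) := by
    intro j x h0
    have h4 := (Q j).injective h0
    exact h2 (by linear_combination -h4)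
  have e3 : ∀ j x, Q j (x + 1) ≠ Q j (x + 2) := by
    intro j x h0
    have h4 := (Q j).injective h0
    exact h1 (by linear_combination -h4)
  have hv1 : ∀ x : ZMod p, (x + 1).val = (x.val + 1) % p := by
    intro x
    have h4 : x + 1 = ((x.val + 1 : ℕ) : ZMod p) := by
      push_cast
      rw [ZMod.natCast_zmod_val]
    rw [h4, ZMod.val_natCast]
  have hv2 : ∀ x : ZMod p, (x + 2).val = (x.val + 2) % p := by
    intro x
    have h4 : x + 2 = ((x.val + 2 : ℕ) : ZMod p) := by
      push_cast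
      rw [ZMod.natCast_zmod_val]
    rw [h4, ZMod.val_natCast]
  obtain ⟨F, hF⟩ : ∃ F : Fin N × ZMod p → Finset (ZMod p), ∀ y,
      F y = {Q y.1 y.2, Q y.1 (y.2 + 1), Q y.1 (y.2 + 2)} := ⟨_, fun _ => rfl⟩
  have hcard : ∀ y, (F y).card = 3 := fun y => by
    rw [hF]
    exact Finset.card_eq_three.2 ⟨_, _, _, e1 _ _, e2 _ _, e3 _ _, rfl⟩
  have hmsk : ∀ y, ∑ v ∈ F y, 2 ^ v.val = key qc p y.1.val y.2.val := by
    intro y
    rw [hF, Finset.sum_insert, Finset.sum_pair (e3 _ _), hQv, hQv, hQv, hv1, hv2]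
    · unfold key
      rw [add_assoc]
    · simp only [Finset.mem_insert, Finset.mem_singleton, not_or]
      exact ⟨e1 _ _, e2 _ _⟩
  have hS : ∀ (j : Fin N) (x : ZMod p), S (R (j.val * p + x.val)) / p = j.val ∧
      S (R (j.val * p + x.val)) % p = x.val := by
    intro j x
    rw [(hI j x).2.2.2]
    constructor
    · rw [mul_comm, Nat.mul_add_div hp, Nat.div_eq_of_lt (ZMod.val_lt x), add_zero]
    · rw [mul_comm, Nat.mul_add_mod, Nat.mod_eq_of_lt (ZMod.val_lt x)]
  have hFinj : Function.Injective F := by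
    rintro ⟨j, x⟩ ⟨j', x'⟩ he
    have h4 := hmsk (j, x)
    rw [he, hmsk (j', x')] at h4
    have h5 : R (j.val * p + x.val) = R (j'.val * p + x'.val) := by
      apply LinK_inj h (hI j x).2.2.1 (hI j' x').2.2.1
      rw [(hS j x).1, (hS j x).2, (hS j' x').1, (hS j' x').2]
      exact h4.symm
    have h6 : j.val = j'.val := by
      refine (hS j x).1.symm.trans ?_
      rw [h5]
      exact (hS j' x').1
    have h7 : x.val = x'.val := by
      refine (hS j x).2.symm.trans ?_
      rw [h5]
      exact (hS j' x').2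
    rw [Fin.ext h6, ZMod.val_injective p h7]
  have himg : Finset.univ.image F = Finset.powersetCard 3 (Finset.univ : Finset (ZMod p)) := by
    apply Finset.eq_of_subset_of_card_le
    · intro s hs
      obtain ⟨y, _, rfl⟩ := Finset.mem_image.1 hs
      exact Finset.mem_powersetCard.2 ⟨Finset.subset_univ _, hcard y⟩
    · rw [Finset.card_powersetCard, Finset.card_image_of_injective _ hFinj, Finset.card_univ,
        Finset.card_univ, Fintype.card_prod, Fintype.card_fin, ZMod.card, LinK_choose h.Z]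
  refine lin h3 (Q := Q) ?_
  intro a b c hab hbc hac
  have h4 : ({a, b, c} : Finset (ZMod p)) ∈ Finset.univ.image F := by
    rw [himg, Finset.mem_powersetCard]
    exact ⟨Finset.subset_univ _, Finset.card_eq_three.2 ⟨a, b, c, hab, hac, hbc, rfl⟩⟩
  obtain ⟨y, _, hy⟩ := Finset.mem_image.1 h4
  refine ⟨y, ?_, ?_⟩
  · show ({a, b, c} : Finset (ZMod p)) = {Q y.1 y.2, Q y.1 (y.2 + 1), Q y.1 (y.2 + 2)}
    rw [← hy, hF]
  · intro z hz
    apply hFinj
    rw [hy, hF z]
    exact hz.symm

end Pool.Agent.H.MP_0d0865_co.AS
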