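import Pool.Agent.H.MP_0d0865_co.AS.Sym

/-!
# P11: the data for the plane over the field with 11 elements

The tables are found by a computer search; the checks are evaluated by the kernel.
-/

set_option autoImplicit false

namespace Pool.Agent.H.MP_0d0865_co.AS

open Pool.Agent.H.MP_0d0865_co.AG

/-- The powers of the generator. -/
def P11.X (l : ℕ) : ℕ :=
  (0xa3a521768996d2e9d43cd7b87c2887c24b96ac42b73e4d873d4bf4199510116533a42ebb32d2bc9981a1defb6451b9c772bf8856e666f06da17abb2203c22c8e8c65c8251dcb9f4c342cbc6a113554e6b75004e3b6d9e564ee155940784582b18c3fee77b124a8808b >>> (7 * l)) % 128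

/-- The logarithm. -/
def P11.lgt (c : ℕ) : ℕ :=
  (0x690e1776fb9011668ef1c45396fb5985291cb30fb5397eda7ac2f3480c6a50f214dc3bb74f4b64e515f2d15e2a256ce9159a111b595526f212c05b1f376d315db5438b098469e827c81f55c0a40fbe3831d747ec09e9505aabc1103365061ad00f4c8dda970b19354080 >>> (7 * c)) % 128

/-- The base cycles. -/
def P11.bc (b x : ℕ) : ℕ :=
  (0x1bd4158883b833a780802f9b382147140c480405805d2cee061e5b8020128bad81c27986590101b219304bc9079a30080 >>> (7 * (11 * b + x))) % 128

/-- The directions. -/
def P11.wc (b : ℕ) : ℕ :=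
  (0xc245498f >>> (7 * b)) % 128

/-- The directions of the translations. -/
def P11.tc (b : ℕ) : ℕ :=
  (0x10204081 >>> (7 * b)) % 128

/-- The table of the places. -/
def P11.tab : List (List ℕ) :=
  [[0x3ec8f4aa60000014f4f723dbb328cc4949f183716d6f8ddc763f0000b1022fcb7f657760f48cd48de88ba35dfc99dc00000e91e21b0f311d2a1f1253ae5d3817eea1a6f6c0000f29dcf4476821128dd688eb814b19d88ef63e0000a8780147be80d68eca04e6028ffac5940e814ac000, 0x15156b6afe1473b79e4f414cc9c68d69e297cd80002fe241f000801862896b20ea2f4351ee57fa20c00098849c22356245627a965afd1497ba40f4ea37c000b7be619814a35e4f9000683d20f0bd2c49b74bc000ba94d12729730e5e00acf603645b],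
   [0x3edd4de000297e7b68cf1907645766cd6fa5bf8c4e312899d0001c2bc44def07ea161c869925694c1a309121ae500026cb23a6992490925ab9d160cb9c003e1bb99bb0002568bd857efaf9aa3c6d155095701aed81143c40002564ba9cb17159c93a93369405446eb7708d9a20000000, 0x45ee9512a3ad0a7c96859bda4f7d11e11650001d1a4109ec714b6a387b7883b070db4d5b54a5000014a07c7431656f1173c42cd1f4872be2588040f0001f2e8cd1c008015b318cc19cda18603d9112e6d0001a0734bcd17c8bd23e68d29493100d37],
   [0x15f00005380f4cba2cbfc5f3d47146f328c039cc66b78c000b58439044967137eb472666a61d5af0e169b074000080cd415004fc8a690e953b71fb5c0ba6948d1c000462e2630aec8bd01464d4c3b86cf0698c6249a00003525a051f9ab0303361eecad0fcc3b60c91016c0007b2060e, 0x4f019f373ba6900e3057807ef306ba0c0001f882c316199a19e3a872b76e171184b2b81c88000733ed34cc0b148464d12d2a8695e30000ef17e000073ca1ddb6566fc50248b55eaa70049b3259b6340000165ecc06a97c71b5caa9936295abb254ce]]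

/-- The entries of the table. -/
def P11.T (r c : ℕ) : ℕ :=
  (((P11.tab.getD r []).getD (c / 64) 0) >>> (14 * (c % 64))) % 16384

theorem P11.chk : Chk 11 3 40 5 0 3 1 1 P11.X P11.lgt P11.bc P11.wc P11.tc P11.T where
  q := by decide +kernel
  s0 := by decide +kernel
  m0 := by decide +kernel
  X1 := by decide +kernel
  X2 := by decide +kernel
  g := by decide +kernel
  B := by decide +kernel
  U := by decide +kernel
  E := by decide +kernel
  N := by decide +kernel
  R := by decide +kernel
  W := by decide +kernel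

theorem P11.plane [Fact (Nat.Prime 11)] : Dec 11 (ZMod 11 × ZMod 11) (Spn 11) :=
  AS.plane (by norm_num) P11.chk

end Pool.Agent.H.MP_0d0865_co.AS
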