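import Pool.Agent.H.MP_0d0865_co.AG.Main
import Pool.Agent.H.MP_0d0865_co.AS.L11
import Pool.Agent.H.MP_0d0865_co.AS.L13
import Pool.Agent.H.MP_0d0865_co.AS.L17
import Pool.Agent.H.MP_0d0865_co.AS.L19
import Pool.Agent.H.MP_0d0865_co.AS.L23
import Pool.Agent.H.MP_0d0865_co.AS.P11
import Pool.Agent.H.MP_0d0865_co.AS.P13
import Pool.Agent.H.MP_0d0865_co.AS.P17
import Pool.Agent.H.MP_0d0865_co.AS.P19
import Pool.Agent.H.MP_0d0865_co.AS.P23

/-!
# Main: powers of the primes from 5 to 23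
-/

set_option autoImplicit false

namespace Pool.Agent.H.MP_0d0865_co.AS

open Pool.Agent.H.MP_0d0865_co.AG

theorem primes (p : ℕ) (hp : p.Prime) (h5 : 5 ≤ p) (h23 : p ≤ 23) (d : ℕ) (hd : 1 ≤ d) :
    Dcp 3 (p ^ d) (fun _ : Fin (p ^ (d - 1)) => p) := by
  by_cases h57 : p = 5 ∨ p = 7
  · exact five_seven p h57 d hd
  obtain ⟨e, rfl⟩ := Nat.exists_eq_add_of_le' hd
  rw [Nat.add_sub_cancel]
  have hF : Fact p.Prime := ⟨hp⟩
  have hc : p = 11 ∨ p = 13 ∨ p = 17 ∨ p = 19 ∨ p = 23 := by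
    have hq := hp
    interval_cases p <;> first | omega | (exfalso; revert hq; norm_num)
  rcases hc with rfl | rfl | rfl | rfl | rfl
  · exact powers L11.line P11.plane e
  · exact powers L13.line P13.plane e
  · exact powers L17.line P17.plane e
  · exact powers L19.line P19.plane e
  · exact powers L23.line P23.plane e

end Pool.Agent.H.MP_0d0865_co.AS
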