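import Pool.Agent.H.MP_0d0865_co.AS.Def

/-!
# Pow: powers of the generator

PROOF. Induction on `k`, `pow_succ'`. `frm_map`: by cases on `e`, linearity. `frm_ne`: the members of the pairs of `frm u v e` are
`± u`, `± v`, `± (u + v)`, which are not `0` as `det u v ≠ 0`. `pow_ret`: `L (G ^ (s * m) v) = L v` and `inj`.
-/

set_option autoImplicit false

namespace Pool.Agent.H.MP_0d0865_co.AS

open Pool.Agent.H.MP_0d0865_co.AG

variable {p s m n0 : ℕ} {G : (ZMod p × ZMod p) →ₗ[ZMod p] (ZMod p × ZMod p)}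
    {L : ZMod p × ZMod p → ℕ} {B : Fin n0 → ZMod p → ZMod p × ZMod p}
    {w t : Fin n0 → ZMod p × ZMod p} {T : ℕ → ℕ → ℕ}

theorem frm_map (G : (ZMod p × ZMod p) →ₗ[ZMod p] (ZMod p × ZMod p)) (u v : ZMod p × ZMod p)
    (e : ℕ) : frm (G u) (G v) e = (G (frm u v e).1, G (frm u v e).2) := by
  unfold frm
  split_ifs <;> simp only [map_sub, map_neg, map_add]

theorem frm_ne {u v : ZMod p × ZMod p} (h : det u v ≠ 0) (e : ℕ) :
    (frm u v e).1 ≠ 0 ∧ (frm u v e).2 ≠ 0 := by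
  have hu : u ≠ 0 := by
    rintro rfl
    apply h
    simp [det]
  have hv : v ≠ 0 := by
    rintro rfl
    apply h
    simp [det]
  have huv : u + v ≠ 0 := by
    intro h0
    apply h
    have h1 : v = -u := (neg_eq_of_add_eq_zero_right h0).symm
    rw [h1]
    simp only [det, Prod.fst_neg, Prod.snd_neg]
    ring
  have hn : -u - v ≠ 0 := by
    intro h0
    apply huv
    have h1 : u + v = -(-u - v) := by abel
    rw [h1, h0, neg_zero]
  unfold frm
  split_ifs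
  · exact ⟨hu, hv⟩
  · exact ⟨hv, hn⟩
  · exact ⟨hn, hu⟩
  · exact ⟨neg_ne_zero.2 hv, neg_ne_zero.2 hu⟩
  · exact ⟨huv, neg_ne_zero.2 hv⟩
  · exact ⟨neg_ne_zero.2 hu, huv⟩

theorem mem_forms {u v : ZMod p × ZMod p} {f : (ZMod p × ZMod p) × (ZMod p × ZMod p)} :
    f ∈ forms u v ↔ ∃ e, e < 6 ∧ f = frm u v e := by
  unfold forms
  simp only [List.mem_cons, List.not_mem_nil, or_false]
  constructor
  · rintro (h | h | h | h | h | h)
    · exact ⟨0, by norm_num, h⟩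
    · exact ⟨1, by norm_num, h⟩
    · exact ⟨2, by norm_num, h⟩
    · exact ⟨3, by norm_num, h⟩
    · exact ⟨4, by norm_num, h⟩
    · exact ⟨5, by norm_num, h⟩
  · rintro ⟨e, he, rfl⟩
    interval_cases e
    · exact Or.inl rfl
    · exact Or.inr (Or.inl rfl)
    · exact Or.inr (Or.inr (Or.inl rfl))
    · exact Or.inr (Or.inr (Or.inr (Or.inl rfl)))
    · exact Or.inr (Or.inr (Or.inr (Or.inr (Or.inl rfl))))
    · exact Or.inr (Or.inr (Or.inr (Or.inr (Or.inr rfl))))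

theorem pow_log (h : Bas p s m n0 G L B w t T) (k : ℕ) {v : ZMod p × ZMod p} (hv : v ≠ 0) :
    (G ^ k) v ≠ 0 ∧ L ((G ^ k) v) = (L v + k) % (s * m) := by
  induction k with
  | zero =>
    rw [pow_zero, add_zero, Nat.mod_eq_of_lt (h.lt v hv)]
    exact ⟨hv, rfl⟩
  | succ k ih =>
    obtain ⟨h1, h2⟩ := ih
    obtain ⟨h3, h4⟩ := h.step _ h1
    have e : (G ^ (k + 1)) v = G ((G ^ k) v) := by
      rw [pow_succ']
      rfl
    rw [e]
    refine ⟨h3, ?_⟩
    rw [h4, h2, Nat.mod_add_mod, add_assoc]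

theorem pow_det [Fact p.Prime] (h : Bas p s m n0 G L B w t T) (k : ℕ) :
    ∃ c : ZMod p, c ≠ 0 ∧ ∀ u v, det ((G ^ k) u) ((G ^ k) v) = c * det u v := by
  induction k with
  | zero =>
    refine ⟨1, one_ne_zero, fun u v => ?_⟩
    rw [pow_zero, one_mul]
    rfl
  | succ k ih =>
    obtain ⟨c, hc, h1⟩ := ih
    obtain ⟨d, hd, h2⟩ := h.gd
    refine ⟨d * c, mul_ne_zero hd hc, fun u v => ?_⟩
    have e : ∀ w, (G ^ (k + 1)) w = G ((G ^ k) w) := by
      intro w
      rw [pow_succ']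
      rfl
    rw [e, e, h2, h1, mul_assoc]

theorem pow_ret (h : Bas p s m n0 G L B w t T) (k : ℕ) (v : ZMod p × ZMod p) :
    (G ^ (s * m * k)) v = v := by
  by_cases hv : v = 0
  · rw [hv, map_zero]
  · obtain ⟨h1, h2⟩ := pow_log h (s * m * k) hv
    refine h.inj _ _ h1 hv ?_
    rw [h2, Nat.add_mul_mod_self_left, Nat.mod_eq_of_lt (h.lt v hv)]

end Pool.Agent.H.MP_0d0865_co.AS
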