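import Pool.Agent.H.MP_0d0865_co.AS.Pow

/-!
# SymE: existence

PROOF. `u ≠ 0`, `v ≠ 0` as `det u v ≠ 0`. Let `i = L u / s` (`< m`), `k = s * (m - i)` (so `k + s i = s m`), `u' = G ^ k u`, `v' = G ^ k v`.
By `pow_log` `L u' = (L u + s (m - i)) % (s m) = L u % s < s`, and `det u' v' ≠ 0` by `pow_det`. `E` gives `b, x, e, i0`: by `inj` and `pow_log`
`frm u' v' e = (G ^ (s i0) d, G ^ (s i0) d')` with `(d, d') = df B b x` (`frm_ne`, `nc`: the vectors are not `0`). Apply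
`G ^ (s i)`: `G ^ (s i) u' = G ^ (s m) u = u` (`pow_ret`), so `frm u v e = (G ^ (s (i + i0)) d, ..)` (`frm_map`), and
`G ^ (s (i + i0)) = G ^ (s ((i + i0) % m))` on all vectors (`pow_ret`, `Nat.div_add_mod`). So `j = finProdFinEquiv (b, (i + i0) % m)`.
-/

set_option autoImplicit false

namespace Pool.Agent.H.MP_0d0865_co.AS

open Pool.Agent.H.MP_0d0865_co.AG

variable {p s m n0 : ℕ} {G : (ZMod p × ZMod p) →ₗ[ZMod p] (ZMod p × ZMod p)}
    {L : ZMod p × ZMod p → ℕ} {B : Fin n0 → ZMod p → ZMod p × ZMod p}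
    {w t : Fin n0 → ZMod p × ZMod p} {T : ℕ → ℕ → ℕ}

theorem sym_ex [Fact p.Prime] (h : Bas p s m n0 G L B w t T) (u v : ZMod p × ZMod p)
    (hd : det u v ≠ 0) : ∃ (j : Fin (n0 * m)) (x : ZMod p), df (PP s G B) j x ∈ forms u v := by
  have hu : u ≠ 0 := (frm_ne hd 0).1
  have hsm : L u < s * m := h.lt u hu
  have hs := h.s0
  have hi : L u / s < m := Nat.div_lt_of_lt_mul hsm
  obtain ⟨i, hie⟩ : ∃ i, i = L u / s := ⟨_, rfl⟩
  rw [← hie] at hi
  have hLi : L u = s * i + L u % s := by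
    rw [hie]
    exact (Nat.div_add_mod (L u) s).symm
  have hks : s * i + s * (m - i) = s * m := by
    rw [← Nat.mul_add, Nat.add_sub_cancel' hi.le]
  obtain ⟨c, hc0, hc⟩ := pow_det h (s * (m - i))
  have hd' : det ((G ^ (s * (m - i))) u) ((G ^ (s * (m - i))) v) ≠ 0 := by
    rw [hc]
    exact mul_ne_zero hc0 hd
  have hL' : L ((G ^ (s * (m - i))) u) < s := by
    rw [(pow_log h (s * (m - i)) hu).2]
    have h1 : L u + s * (m - i) = L u % s + s * m := by omega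
    rw [h1, Nat.add_mod_right]
    exact lt_of_le_of_lt (Nat.mod_le _ _) (Nat.mod_lt _ hs)
  obtain ⟨b, x, e, i0, he, hi0, e1, e2⟩ := h.E _ _ hL' hd'
  have hdn := frm_ne (h.nc b x) 0
  have hd1 : (df B b x).1 ≠ 0 := hdn.1
  have hd2 : (df B b x).2 ≠ 0 := hdn.2
  have hf := frm_ne hd' e
  have g1 : (frm ((G ^ (s * (m - i))) u) ((G ^ (s * (m - i))) v) e).1 =
      (G ^ (s * i0)) (df B b x).1 := by
    refine h.inj _ _ hf.1 (pow_log h (s * i0) hd1).1 ?_
    rw [e1, (pow_log h (s * i0) hd1).2]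
  have g2 : (frm ((G ^ (s * (m - i))) u) ((G ^ (s * (m - i))) v) e).2 =
      (G ^ (s * i0)) (df B b x).2 := by
    refine h.inj _ _ hf.2 (pow_log h (s * i0) hd2).1 ?_
    rw [e2, (pow_log h (s * i0) hd2).2]
  rw [frm_map] at g1 g2
  have hm := h.m0
  have hback : ∀ a d : ZMod p × ZMod p, (G ^ (s * (m - i))) a = (G ^ (s * i0)) d →
      a = (G ^ (s * ((i + i0) % m))) d := by
    intro a d had
    have h1 : (G ^ (s * i)) ((G ^ (s * (m - i))) a) = a := by
      rw [← Module.End.mul_apply, ← pow_add, hks]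
      have h2 := pow_ret h 1 a
      rw [mul_one] at h2
      exact h2
    have h3 : s * i + s * i0 = s * ((i + i0) % m) + s * m * ((i + i0) / m) := by
      rw [mul_assoc, ← Nat.mul_add, ← Nat.mul_add, Nat.mod_add_div]
    rw [← h1, had, ← Module.End.mul_apply, ← pow_add, h3, pow_add, Module.End.mul_apply,
      pow_ret h]
  have k1 := hback _ _ g1
  have k2 := hback _ _ g2
  refine ⟨finProdFinEquiv (b, ⟨(i + i0) % m, Nat.mod_lt _ hm⟩), x, ?_⟩
  rw [mem_forms]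
  refine ⟨e, he, ?_⟩
  have hP : ∀ y, PP s G B (finProdFinEquiv (b, (⟨(i + i0) % m, Nat.mod_lt _ hm⟩ : Fin m))) y =
      (G ^ (s * ((i + i0) % m))) (B b y) := by
    intro y
    unfold PP
    rw [Equiv.symm_apply_apply]
  have hD : df (PP s G B) (finProdFinEquiv (b, (⟨(i + i0) % m, Nat.mod_lt _ hm⟩ : Fin m))) x =
      ((G ^ (s * ((i + i0) % m))) (df B b x).1, (G ^ (s * ((i + i0) % m))) (df B b x).2) := by
    unfold df
    rw [hP, hP, hP, map_sub, map_sub]
  rw [hD, ← k1, ← k2]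

end Pool.Agent.H.MP_0d0865_co.AS
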