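import Pool.Agent.H.MP_0d0865_co.AS.SymU
import Pool.Agent.H.MP_0d0865_co.AS.SymE
import Pool.Agent.H.MP_0d0865_co.AS.Brg
import Pool.Agent.H.MP_0d0865_co.AG.Pla

/-!
# Sym: the plane from the numerical checks

PROOF. `sym`: `ex`, `un` by `sym_ex`, `sym_un`; `nc`, `tr`, `wt` by `pow_det` (`df (PP ..) j x` is the image of `df B b x` under `G ^ (s i)`, and
`det (G ^ k u) (G ^ k v) = c * det u v`, `c ≠ 0`). `plane`: `pla` of `AG.Pla` with `brg` and `sym`.
-/

set_option autoImplicit false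

namespace Pool.Agent.H.MP_0d0865_co.AS

open Pool.Agent.H.MP_0d0865_co.AG

theorem sym {p s m n0 : ℕ} [Fact p.Prime] {G : (ZMod p × ZMod p) →ₗ[ZMod p] (ZMod p × ZMod p)}
    {L : ZMod p × ZMod p → ℕ} {B : Fin n0 → ZMod p → ZMod p × ZMod p}
    {w t : Fin n0 → ZMod p × ZMod p} {T : ℕ → ℕ → ℕ} (h : Bas p s m n0 G L B w t T) :
    Dat p (n0 * m) (PP s G B) (WW s G w) (WW s G t) := by
  have hk : ∀ j : Fin (n0 * m), ∃ c : ZMod p, c ≠ 0 ∧ ∀ u v,
      det ((G ^ (s * (finProdFinEquiv.symm j).2.val)) u)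
        ((G ^ (s * (finProdFinEquiv.symm j).2.val)) v) = c * det u v :=
    fun j => pow_det h _
  refine ⟨fun u v hd => sym_ex h u v hd, fun j x j' x' hf => sym_un h j x j' x' hf, ?_, ?_, ?_⟩
  · intro j x
    obtain ⟨c, hc, hdet⟩ := hk j
    have e1 : (df (PP s G B) j x).1 = (G ^ (s * (finProdFinEquiv.symm j).2.val))
        (df B (finProdFinEquiv.symm j).1 x).1 := by
      show (G ^ (s * (finProdFinEquiv.symm j).2.val)) (B (finProdFinEquiv.symm j).1 (x + 1)) -
        (G ^ (s * (finProdFinEquiv.symm j).2.val)) (B (finProdFinEquiv.symm j).1 x) =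
        (G ^ (s * (finProdFinEquiv.symm j).2.val))
          (B (finProdFinEquiv.symm j).1 (x + 1) - B (finProdFinEquiv.symm j).1 x)
      rw [map_sub]
    have e2 : (df (PP s G B) j x).2 = (G ^ (s * (finProdFinEquiv.symm j).2.val))
        (df B (finProdFinEquiv.symm j).1 x).2 := by
      show (G ^ (s * (finProdFinEquiv.symm j).2.val)) (B (finProdFinEquiv.symm j).1 (x + 2)) -
        (G ^ (s * (finProdFinEquiv.symm j).2.val)) (B (finProdFinEquiv.symm j).1 (x + 1)) =
        (G ^ (s * (finProdFinEquiv.symm j).2.val))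
          (B (finProdFinEquiv.symm j).1 (x + 2) - B (finProdFinEquiv.symm j).1 (x + 1))
      rw [map_sub]
    rw [e1, e2, hdet]
    exact mul_ne_zero hc (h.nc _ _)
  · intro j x x' he
    obtain ⟨c, hc, hdet⟩ := hk j
    have h1 : c * det (w (finProdFinEquiv.symm j).1) (B (finProdFinEquiv.symm j).1 x) =
        c * det (w (finProdFinEquiv.symm j).1) (B (finProdFinEquiv.symm j).1 x') := by
      rw [← hdet, ← hdet]
      exact he
    exact h.tr _ _ _ (mul_left_cancel₀ hc h1)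
  · intro j
    obtain ⟨c, hc, hdet⟩ := hk j
    have h1 : det (WW s G w j) (WW s G t j) =
        c * det (w (finProdFinEquiv.symm j).1) (t (finProdFinEquiv.symm j).1) := by
      rw [← hdet]
      rfl
    rw [h1]
    exact mul_ne_zero hc (h.wt _)

theorem plane {p : ℕ} [Fact p.Prime] (h3 : 3 < p) {s m n0 ga gb gc gd : ℕ} {X lgt : ℕ → ℕ}
    {bc : ℕ → ℕ → ℕ} {wc tc : ℕ → ℕ} {T : ℕ → ℕ → ℕ}
    (h : Chk p s m n0 ga gb gc gd X lgt bc wc tc T) : Dec p (ZMod p × ZMod p) (Spn p) := by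
  exact pla h3 (sym (brg h3 h))

end Pool.Agent.H.MP_0d0865_co.AS
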