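import Mathlib

/-!
# SymN: the arithmetic of the proof of uniqueness

PROOF. Cast to integers or use `Nat.ModEq`. `s` divides `s * m`, so the first equation gives `a ≡ c` modulo `s`. Write
`a = s A + r`, `c = s C + r`, `A = a / s < m`, `C = c / s < m`: `s A + s i' ≡ s C + s i` modulo `s m`, so `A + i' ≡ C + i` modulo `m`
(`Nat.ModEq.mul_left_cancel'` or integers). The middle: `a' - s A ≡ c' + s i - s i' - s A ≡ c' - s C` modulo `s m`.
-/

set_option autoImplicit false

namespace Pool.Agent.H.MP_0d0865_co.AS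

/-- The arithmetic of the proof. -/
theorem SymU_num {s m a a' c c' i i' : ℕ} (hs : 0 < s) (hm : 0 < m) (ha : a < s * m) (hc : c < s * m)
    (h1 : (a + s * i') % (s * m) = (c + s * i) % (s * m))
    (h2 : (a' + s * i') % (s * m) = (c' + s * i) % (s * m)) :
    a % s = c % s ∧ (a' + (s * m - s * (a / s))) % (s * m) = (c' + (s * m - s * (c / s))) % (s * m) ∧
      (a / s + i') % m = (c / s + i) % m := by
  obtain ⟨k, hk⟩ := Nat.modEq_iff_dvd.1 h1
  obtain ⟨k2, hk2⟩ := Nat.modEq_iff_dvd.1 h2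
  push_cast at hk hk2
  obtain ⟨A, hA⟩ : ∃ A : ℕ, A = a / s := ⟨_, rfl⟩
  obtain ⟨C, hC⟩ : ∃ C : ℕ, C = c / s := ⟨_, rfl⟩
  obtain ⟨r, hr⟩ : ∃ r : ℕ, r = a % s := ⟨_, rfl⟩
  obtain ⟨r', hr'⟩ : ∃ r : ℕ, r = c % s := ⟨_, rfl⟩
  have eA : (a : ℤ) = s * A + r := by
    have h := Nat.div_add_mod a s
    rw [← hA, ← hr] at h
    exact_mod_cast h.symm
  have eC : (c : ℤ) = s * C + r' := by
    have h := Nat.div_add_mod c s
    rw [← hC, ← hr'] at h
    exact_mod_cast h.symm
  have f1 : a % s = c % s := Nat.modEq_iff_dvd.2 ⟨m * k - i + i', by linear_combination hk⟩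
  have hrr : (r : ℤ) = r' := by
    rw [hr, hr', f1]
  have hs' : (s : ℤ) ≠ 0 := by exact_mod_cast hs.ne'
  have f3 : (C : ℤ) + i - (A + i') = m * k := by
    apply mul_left_cancel₀ hs'
    linear_combination hk + eA - eC + hrr
  have hAle : s * A ≤ s * m := by
    have h : A * s ≤ a := by
      rw [hA]
      exact Nat.div_mul_le_self a s
    have h' : s * A = A * s := mul_comm _ _
    omega
  have hCle : s * C ≤ s * m := by
    have h : C * s ≤ c := by
      rw [hC]
      exact Nat.div_mul_le_self c s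
    have h' : s * C = C * s := mul_comm _ _
    omega
  refine ⟨f1, ?_, ?_⟩
  · rw [← hA, ← hC]
    refine Nat.modEq_iff_dvd.2 ⟨k2 - k, ?_⟩
    push_cast [Nat.cast_sub hAle, Nat.cast_sub hCle]
    linear_combination hk2 - s * f3
  · rw [← hA, ← hC]
    refine Nat.modEq_iff_dvd.2 ⟨k, ?_⟩
    push_cast
    exact f3

end Pool.Agent.H.MP_0d0865_co.AS
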