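import Pool.Agent.H.MP_0d0865_co.AS.Pow
import Pool.Agent.H.MP_0d0865_co.AS.SymN

/-!
# SymU: uniqueness

PROOF. Let `(b, i)`, `(b', i')` correspond to `j`, `j'` under `finProdFinEquiv`, `(d, d') = df B b x`, `(g, g') = df B b' x'`; `df (PP ..) j x` is
`(G ^ (s i) d, G ^ (s i) d')`. By `mem_forms`, `frm_map`: `G ^ (s i') g = G ^ (s i) f`, `G ^ (s i') g' = G ^ (s i) f'` with `(f, f') = frm d d' e`. By
`pow_log`: `L g + s i' ≡ L f + s i` and `L g' + s i' ≡ L f' + s i` modulo `s m`, all four vectors are not `0` (`nc`, `frm_ne`). So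
`L g % s = L f % s`, `L g / s + i' ≡ L f / s + i` modulo `m`, and
`(L g' + (s m - s (L g / s))) % (s m) = (L f' + (s m - s (L f / s))) % (s m)` (`SymU_num`). By `U` for `(b, x, e)` and for `(b', x', 0)`
the numbers `(b m + (m - L f / s) % m) p + x` and `(b' m + (m - L g / s) % m) p + x'` are equal (the same entry of `T`); as `x, x' < p` and
`(m - ..) % m < m` this gives `x = x'`, `b = b'`, `(m - L f / s) % m = (m - L g / s) % m`, so `L f / s = L g / s` (both are less than `m`), and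
`i = i'` (both less than `m`). (`Nat.ModEq` is convenient.)
-/

set_option autoImplicit false

namespace Pool.Agent.H.MP_0d0865_co.AS

open Pool.Agent.H.MP_0d0865_co.AG

variable {p s m n0 : ℕ} {G : (ZMod p × ZMod p) →ₗ[ZMod p] (ZMod p × ZMod p)}
    {L : ZMod p × ZMod p → ℕ} {B : Fin n0 → ZMod p → ZMod p × ZMod p}
    {w t : Fin n0 → ZMod p × ZMod p} {T : ℕ → ℕ → ℕ}

private theorem SymU_eucl {q a a' y y' : ℕ} (hy : y < q) (hy' : y' < q)
    (h : a * q + y = a' * q + y') : a = a' ∧ y = y' := by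
  have hq : 0 < q := by omega
  have h1 : (a * q + y) % q = y := by
    rw [Nat.mul_add_mod_self_right, Nat.mod_eq_of_lt hy]
  have h2 : (a' * q + y') % q = y' := by
    rw [Nat.mul_add_mod_self_right, Nat.mod_eq_of_lt hy']
  have h3 : y = y' := by rw [← h1, h, h2]
  subst h3
  exact ⟨Nat.eq_of_mul_eq_mul_right hq (Nat.add_right_cancel h), rfl⟩

private theorem SymU_inj {m α β : ℕ} (hα : α < m) (hβ : β < m)
    (h : (m - α) % m = (m - β) % m) : α = β := by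
  rcases Nat.eq_zero_or_pos α with h1 | h1 <;> rcases Nat.eq_zero_or_pos β with h2 | h2
  · omega
  · rw [h1, Nat.sub_zero, Nat.mod_self, Nat.mod_eq_of_lt (by omega)] at h
    omega
  · rw [h2, Nat.sub_zero, Nat.mod_self, Nat.mod_eq_of_lt (by omega)] at h
    omega
  · rw [Nat.mod_eq_of_lt (by omega), Nat.mod_eq_of_lt (by omega)] at h
    omega

private theorem SymU_df (s : ℕ) (G : (ZMod p × ZMod p) →ₗ[ZMod p] (ZMod p × ZMod p))
    (B : Fin n0 → ZMod p → ZMod p × ZMod p) (j : Fin (n0 * m)) (x : ZMod p) :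
    df (PP s G B) j x =
      ((G ^ (s * (finProdFinEquiv.symm j).2.val)) (df B (finProdFinEquiv.symm j).1 x).1,
        (G ^ (s * (finProdFinEquiv.symm j).2.val)) (df B (finProdFinEquiv.symm j).1 x).2) := by
  unfold df PP
  simp only [map_sub]

theorem sym_un [Fact p.Prime] (h : Bas p s m n0 G L B w t T) (j : Fin (n0 * m)) (x : ZMod p)
    (j' : Fin (n0 * m)) (x' : ZMod p)
    (hf : df (PP s G B) j' x' ∈ forms (df (PP s G B) j x).1 (df (PP s G B) j x).2) :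
    j = j' ∧ x = x' := by
  obtain ⟨e, he, hf⟩ := mem_forms.1 hf
  rw [SymU_df, SymU_df, frm_map] at hf
  obtain ⟨e1, e2⟩ := Prod.mk.inj hf
  obtain ⟨b, hb⟩ : ∃ b, b = (finProdFinEquiv.symm j).1 := ⟨_, rfl⟩
  obtain ⟨i, hi⟩ : ∃ i, i = (finProdFinEquiv.symm j).2 := ⟨_, rfl⟩
  obtain ⟨b', hb'⟩ : ∃ b', b' = (finProdFinEquiv.symm j').1 := ⟨_, rfl⟩
  obtain ⟨i', hi'⟩ : ∃ i', i' = (finProdFinEquiv.symm j').2 := ⟨_, rfl⟩
  rw [← hb, ← hi, ← hb', ← hi'] at e1 e2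
  obtain ⟨hf1, hf2⟩ := frm_ne (h.nc b x) e
  obtain ⟨hg1, hg2⟩ := frm_ne (h.nc b' x') 0
  have hg0 : frm (df B b' x').1 (df B b' x').2 0 = ((df B b' x').1, (df B b' x').2) := by
    unfold frm
    rw [if_pos rfl]
  rw [hg0] at hg1 hg2
  have U1 := h.U b x e he
  have U2 := h.U b' x' 0 (by norm_num)
  rw [hg0] at U2
  obtain ⟨f, hfd⟩ : ∃ f, f = (frm (df B b x).1 (df B b x).2 e).1 := ⟨_, rfl⟩
  obtain ⟨f', hfd'⟩ : ∃ f', f' = (frm (df B b x).1 (df B b x).2 e).2 := ⟨_, rfl⟩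
  obtain ⟨g, hgd⟩ : ∃ g, g = (df B b' x').1 := ⟨_, rfl⟩
  obtain ⟨g', hgd'⟩ : ∃ g', g' = (df B b' x').2 := ⟨_, rfl⟩
  rw [← hfd] at e1 hf1 U1
  rw [← hfd'] at e2 hf2 U1
  rw [← hgd] at e1 hg1 U2
  rw [← hgd'] at e2 hg2 U2
  have h1 : (L g + s * i'.val) % (s * m) = (L f + s * i.val) % (s * m) := by
    rw [← (pow_log h _ hg1).2, ← (pow_log h _ hf1).2, e1]
  have h2 : (L g' + s * i'.val) % (s * m) = (L f' + s * i.val) % (s * m) := by
    rw [← (pow_log h _ hg2).2, ← (pow_log h _ hf2).2, e2]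
  obtain ⟨k1, k2, k3⟩ := SymU_num h.s0 h.m0 (h.lt g hg1) (h.lt f hf1) h1 h2
  have U1' : T (L f % s) ((L f' + (s * m - s * (L f / s))) % (s * m)) / 6 =
      (b.val * m + (m - L f / s) % m) * p + x.val := U1
  have U2' : T (L g % s) ((L g' + (s * m - s * (L g / s))) % (s * m)) / 6 =
      (b'.val * m + (m - L g / s) % m) * p + x'.val := U2
  rw [k1, k2, U1'] at U2'
  obtain ⟨n1, n2⟩ := SymU_eucl (ZMod.val_lt x) (ZMod.val_lt x') U2'
  obtain ⟨n3, n4⟩ := SymU_eucl (Nat.mod_lt _ h.m0) (Nat.mod_lt _ h.m0) n1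
  have hLf : L f / s < m := Nat.div_lt_of_lt_mul (h.lt f hf1)
  have hLg : L g / s < m := Nat.div_lt_of_lt_mul (h.lt g hg1)
  have n5 := SymU_inj hLf hLg n4
  rw [← n5] at k3
  have n6 : i'.val = i.val :=
    Nat.ModEq.eq_of_lt_of_lt (Nat.ModEq.add_left_cancel' (L f / s) k3) i'.isLt i.isLt
  have hbb : b = b' := Fin.ext n3
  have hii : i = i' := Fin.ext n6.symm
  refine ⟨?_, ZMod.val_injective p n2⟩
  apply finProdFinEquiv.symm.injective
  exact Prod.ext (by rw [← hb, ← hb', hbb]) (by rw [← hi, ← hi', hii])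

end Pool.Agent.H.MP_0d0865_co.AS
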